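import Mathlib

/-!
The closure of the set of real Wiener roots of trees is the whole half-line `(-∞, 0]`.
-/

namespace Pool.Agent.Results.MP_9469ec_co.WienerRootsDense

open SimpleGraph Finset

/-- The Wiener polynomial as a function: half of the sum over ordered pairs of distinct
vertices. -/
noncomputable def wiener {V : Type} [Fintype V] (G : SimpleGraph V) (x : ℝ) : ℝ := by
  classical exact (∑ p ∈ (univ : Finset V).offDiag, x ^ G.dist p.1 p.2) / 2

/-- The set of real Wiener roots of trees (with at least two vertices). -/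
def realRoots : Set ℝ :=
  {x | ∃ (V : Type) (_ : Fintype V) (G : SimpleGraph V), G.IsTree ∧ 2 ≤ Fintype.card V ∧
    wiener G x = 0}

theorem wiener_eq {V : Type} [Fintype V] (G : SimpleGraph V) (x : ℝ) :
    wiener G x = ((∑ u, ∑ v, x ^ G.dist u v) - Fintype.card V) / 2 := by
  classical
  unfold wiener
  have h : (∑ u, ∑ v, x ^ G.dist u v) =
      (∑ p ∈ (univ : Finset V).offDiag, x ^ G.dist p.1 p.2) +
        ∑ p ∈ (univ : Finset V).diag, x ^ G.dist p.1 p.2 := by
    rw [← sum_product', ← sum_union (disjoint_diag_offDiag _).symm, union_comm,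
      diag_union_offDiag]
  rw [h, sum_diag]
  simp

/-- The root polynomial. -/
noncomputable def rootP {V : Type} [Fintype V] (G : SimpleGraph V) (r : V) (x : ℝ) : ℝ :=
  ∑ v, x ^ G.dist r v

/-! ### Adding a pendant vertex -/

/-- Add a pendant vertex `none` attached to `r`. -/
def pend {V : Type} (G : SimpleGraph V) (r : V) : SimpleGraph (Option V) where
  Adj
    | some u, some v => G.Adj u v
    | none, some v => v = r
    | some u, none => u = r
    | none, none => False
  symm := ⟨by
    rintro (_ | u) (_ | v) h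
    · exact h
    · exact h
    · exact h
    · exact G.adj_symm h⟩
  loopless := ⟨by
    rintro (_ | u) h
    · exact h
    · exact G.loopless.irrefl u h⟩

section pendant

variable {V : Type} {G : SimpleGraph V} {r : V}

/-- The retraction. -/
def ret (r : V) : Option V → V := fun o => o.getD r

theorem ret_le (hG : G.Connected) {u v : Option V} (w : (pend G r).Walk u v) :
    G.dist (ret r u) (ret r v) ≤ w.length := by
  induction w with
  | nil => simp
  | cons h w ih =>
    rename_i a b c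
    have h1 : G.dist (ret r a) (ret r b) ≤ 1 := by
      rcases a with _ | a <;> rcases b with _ | b
      · exact absurd h (by simp [pend])
      · have : b = r := h
        subst this
        simp [ret]
      · have : a = r := h
        subst this
        simp [ret]
      · have : G.Adj a b := h
        exact (dist_eq_one_iff_adj.2 this).le
    have h2 := hG.dist_triangle (u := ret r a) (v := ret r b) (w := ret r c)
    simp only [Walk.length_cons]
    omega

/-- The inclusion. -/
def inc (G : SimpleGraph V) (r : V) : G →g pend G r := ⟨some, fun h => h⟩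

theorem pend_connected (hG : G.Connected) : (pend G r).Connected := by
  have h0 : (pend G r).Adj none (some r) := rfl
  have h1 : ∀ u v : V, (pend G r).Reachable (some u) (some v) := fun u v =>
    (hG.preconnected u v).map (inc G r)
  refine ⟨?_⟩
  rintro (_ | u) (_ | v)
  · exact Reachable.refl _
  · exact h0.reachable.trans (h1 r v)
  · exact (h1 u r).trans h0.reachable.symm
  · exact h1 u v

theorem dist_some_some (hG : G.Connected) (u v : V) :
    (pend G r).dist (some u) (some v) = G.dist u v := by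
  apply le_antisymm
  · obtain ⟨w, hw⟩ := hG.exists_walk_length_eq_dist u v
    rw [← hw, ← Walk.length_map (inc G r) w]
    exact dist_le _
  · obtain ⟨w, hw⟩ := (pend_connected (r := r) hG).exists_walk_length_eq_dist (some u) (some v)
    rw [← hw]
    exact ret_le hG w

theorem dist_none_some (hG : G.Connected) (v : V) :
    (pend G r).dist none (some v) = G.dist r v + 1 := by
  apply le_antisymm
  · have h := (pend_connected (r := r) hG).dist_triangle (u := none) (v := some r) (w := some v)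
    have h1 : (pend G r).dist none (some r) = 1 := dist_eq_one_iff_adj.2 rfl
    rw [dist_some_some hG, h1] at h
    omega
  · obtain ⟨w, hw⟩ := (pend_connected (r := r) hG).exists_walk_length_eq_dist none (some v)
    rw [← hw]
    cases w with
    | cons h w =>
      rename_i b
      rcases b with _ | b
      · exact absurd h (by simp [pend])
      · have hb : b = r := h
        subst hb
        have := ret_le hG w
        simp only [Walk.length_cons]
        exact Nat.succ_le_succ this

theorem dist_some_none (hG : G.Connected) (v : V) :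
    (pend G r).dist (some v) none = G.dist r v + 1 := by
  rw [dist_comm, dist_none_some hG]

theorem pend_isTree [Finite V] (hG : G.IsTree) : (pend G r).IsTree := by
  have := Fintype.ofFinite V
  rw [isTree_iff_connected_and_card] at hG ⊢
  have hconn := pend_connected (r := r) hG.1
  refine ⟨hconn, le_antisymm ?_ ?_⟩
  · have hsub : (pend G r).edgeSet ⊆ (Sym2.map some '' G.edgeSet) ∪ {s(none, some r)} := by
      intro e he
      induction e using Sym2.ind with
      | _ a b =>
        rw [mem_edgeSet] at he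
        rcases a with _ | a <;> rcases b with _ | b
        · exact absurd he (by simp [pend])
        · right
          have : b = r := he
          rw [this]; rfl
        · right
          have : a = r := he
          rw [this]; exact Sym2.eq_swap
        · left
          exact ⟨s(a, b), he, by simp⟩
    have h1 : (pend G r).edgeSet.ncard ≤ G.edgeSet.ncard + 1 := by
      refine (Set.ncard_le_ncard hsub (Set.toFinite _)).trans ?_
      refine (Set.ncard_union_le _ _).trans ?_
      rw [Set.ncard_singleton]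
      exact Nat.add_le_add_right (Set.ncard_image_le (Set.toFinite _)) 1
    have h2 : Nat.card (pend G r).edgeSet = (pend G r).edgeSet.ncard := rfl
    have h3 : Nat.card G.edgeSet = G.edgeSet.ncard := rfl
    have h4 : Nat.card (Option V) = Nat.card V + 1 := Finite.card_option
    omega
  · exact hconn.card_vert_le_card_edgeSet_add_one

end pendant

/-! ### Achievable pairs -/

/-- A pair of functions is achieved by a rooted tree. -/
def Ach (W R : ℝ → ℝ) : Prop :=
  ∃ (V : Type) (_ : Fintype V) (G : SimpleGraph V) (r : V), G.IsTree ∧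
    (∀ x, wiener G x = W x) ∧ (∀ x, rootP G r x = R x)

theorem ach_base : Ach (fun _ => 0) (fun _ => 1) := by
  refine ⟨Unit, inferInstance, ⊥, (), ?_, ?_, ?_⟩
  · exact IsTree.of_subsingleton
  · intro x
    rw [wiener_eq]
    simp
  · intro x
    simp [rootP]

theorem wiener_pend {V : Type} [Fintype V] {G : SimpleGraph V} (hG : G.Connected) (r : V)
    (x : ℝ) : wiener (pend G r) x = wiener G x + x * rootP G r x := by
  rw [wiener_eq, wiener_eq, Fintype.sum_option, Fintype.sum_option]
  simp only [Fintype.sum_option, dist_some_some hG, dist_none_some hG, dist_some_none hG,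
    dist_self, pow_zero, Fintype.card_option, pow_succ, rootP, sum_add_distrib, ← sum_mul]
  push_cast
  ring

theorem ach_leaf {W R : ℝ → ℝ} (h : Ach W R) :
    Ach (fun x => W x + x * R x) (fun x => R x + x) := by
  obtain ⟨V, _, G, r, hT, hW, hR⟩ := h
  refine ⟨Option V, inferInstance, pend G r, some r, pend_isTree hT, ?_, ?_⟩
  · intro x
    rw [wiener_pend hT.connected, hW, hR]
  · intro x
    show rootP (pend G r) (some r) x = R x + x
    rw [← hR]
    simp only [rootP, Fintype.sum_option, dist_some_some hT.connected,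
      dist_some_none hT.connected, dist_self]
    ring

theorem ach_path {W R : ℝ → ℝ} (h : Ach W R) :
    Ach (fun x => W x + x * R x) (fun x => 1 + x * R x) := by
  obtain ⟨V, _, G, r, hT, hW, hR⟩ := h
  refine ⟨Option V, inferInstance, pend G r, none, pend_isTree hT, ?_, ?_⟩
  · intro x
    rw [wiener_pend hT.connected, hW, hR]
  · intro x
    show rootP (pend G r) none x = 1 + x * R x
    rw [← hR]
    simp only [rootP, Fintype.sum_option, dist_none_some hT.connected, dist_self, pow_succ,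
      ← sum_mul]
    ring

theorem ach_leaves {W R : ℝ → ℝ} (h : Ach W R) (b : ℕ) :
    Ach (fun x => W x + b * (x * R x) + b * (b - 1) / 2 * x ^ 2) (fun x => R x + b * x) := by
  induction b with
  | zero => simpa using h
  | succ b ih =>
    have := ach_leaf ih
    convert this using 2 with x x
    · push_cast; ring
    · push_cast; ring

/-- The broom: `m` leaves, then a path of length `L`. -/
theorem ach_broom (m L : ℕ) :
    Ach (fun x => m * x + m * (m - 1) / 2 * x ^ 2 +
        x * ∑ j ∈ range L, (x ^ j * (1 + m * x) + ∑ i ∈ range j, x ^ i))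
      (fun x => x ^ L * (1 + m * x) + ∑ i ∈ range L, x ^ i) := by
  induction L with
  | zero =>
    have := ach_leaves ach_base m
    convert this using 2 with x x
    · simp
    · simp
  | succ L ih =>
    have := ach_path ih
    convert this using 2 with x x
    · rw [sum_range_succ]; ring
    · rw [geom_sum_succ]; ring

/-- The double star. -/
theorem ach_double (a b : ℕ) :
    Ach (fun x => a * x + a * (a - 1) / 2 * x ^ 2 + x * (1 + a * x) +
        b * (x * (1 + x * (1 + a * x))) + b * (b - 1) / 2 * x ^ 2)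
      (fun x => 1 + x * (1 + a * x) + b * x) := by
  have := ach_leaves (ach_path (ach_leaves ach_base a)) b
  convert this using 2 with x x
  simp

/-! ### Roots -/

theorem wiener_continuous {V : Type} [Fintype V] (G : SimpleGraph V) :
    Continuous (fun x => wiener G x) := by
  simp only [wiener_eq]
  fun_prop

/-- The vertex number is at least two as soon as the Wiener polynomial does not vanish. -/
theorem card_ge {V : Type} [Fintype V] {G : SimpleGraph V} {x : ℝ} (h : wiener G x ≠ 0) :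
    2 ≤ Fintype.card V := by
  by_contra hlt
  apply h
  have : Subsingleton V := Fintype.card_le_one_iff_subsingleton.1 (by omega)
  classical
  unfold wiener
  have he : (univ : Finset V).offDiag = ∅ := by
    ext p
    simp only [mem_offDiag, mem_univ, true_and, notMem_empty, iff_false, not_not]
    exact Subsingleton.elim _ _
  rw [he]
  simp

/-- A sign change gives a real root of a tree. -/
theorem root_of_sign {W R : ℝ → ℝ} (h : Ach W R) {x0 x1 : ℝ} (h01 : x0 < x1)
    (hs : W x0 * W x1 < 0) : ∃ x ∈ realRoots, x0 < x ∧ x < x1 := by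
  obtain ⟨V, _, G, r, hT, hW, -⟩ := h
  rw [← hW, ← hW] at hs
  have hne0 : wiener G x0 ≠ 0 := by rintro h; rw [h] at hs; simp at hs
  have hne1 : wiener G x1 ≠ 0 := by rintro h; rw [h] at hs; simp at hs
  have hcont : ContinuousOn (fun x => wiener G x) (Set.Icc x0 x1) :=
    (wiener_continuous G).continuousOn
  have hex : ∃ x ∈ Set.Icc x0 x1, wiener G x = 0 := by
    rcases lt_or_gt_of_ne hne0 with h | h
    · have h1 : 0 < wiener G x1 := by
        by_contra hc
        push Not at hc
        nlinarith [mul_nonneg_of_nonpos_of_nonpos h.le hc]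
      exact intermediate_value_Icc h01.le hcont ⟨h.le, h1.le⟩
    · have h1 : wiener G x1 < 0 := by
        by_contra hc
        push Not at hc
        nlinarith [mul_nonneg h.le hc]
      exact intermediate_value_Icc' h01.le hcont ⟨h1.le, h.le⟩
  obtain ⟨x, hx, hx0⟩ := hex
  refine ⟨x, ⟨V, inferInstance, G, hT, card_ge hne0, hx0⟩, lt_of_le_of_ne hx.1 ?_,
    lt_of_le_of_ne hx.2 ?_⟩
  · rintro rfl; exact hne0 hx0
  · rintro rfl; exact hne1 hx0

/-- Intervals to the left of `-1`. -/
theorem left_case {x0 x1 : ℝ} (h01 : x0 < x1) (h1 : x1 < -1) :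
    ∃ x ∈ realRoots, x0 < x ∧ x < x1 := by
  -- a rational ratio
  obtain ⟨q, hq0, hqa, hqb⟩ : ∃ q : ℚ, 0 < (q : ℝ) ∧ (q : ℝ) ^ 2 + 2 * q * x0 + 1 < 0 ∧
      0 < (q : ℝ) ^ 2 + 2 * q * x1 + 1 := by
    set y := -(x0 + x1) / 2 with hy
    have hy1 : 1 < y := by rw [hy]; linarith
    set ρ := y + Real.sqrt (y ^ 2 - 1) with hρ
    have hsq : Real.sqrt (y ^ 2 - 1) ^ 2 = y ^ 2 - 1 := Real.sq_sqrt (by nlinarith)
    have hs0 : 0 ≤ Real.sqrt (y ^ 2 - 1) := Real.sqrt_nonneg _
    have hρpos : 0 < ρ := by rw [hρ]; linarith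
    have hρ2 : ρ ^ 2 + 1 = 2 * y * ρ := by rw [hρ]; nlinarith
    have hopen : IsOpen {t : ℝ | 0 < t ∧ t ^ 2 + 2 * t * x0 + 1 < 0 ∧
        0 < t ^ 2 + 2 * t * x1 + 1} := by
      apply IsOpen.and
      · exact isOpen_lt continuous_const continuous_id
      · apply IsOpen.and
        · exact isOpen_lt (by fun_prop) continuous_const
        · exact isOpen_lt continuous_const (by fun_prop)
    have hmem : ρ ∈ {t : ℝ | 0 < t ∧ t ^ 2 + 2 * t * x0 + 1 < 0 ∧
        0 < t ^ 2 + 2 * t * x1 + 1} := by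
      refine ⟨hρpos, ?_, ?_⟩
      · have : ρ ^ 2 + 2 * ρ * x0 + 1 = 2 * ρ * (y + x0) := by linear_combination hρ2
        rw [this]
        have : y + x0 < 0 := by rw [hy]; linarith
        nlinarith
      · have : ρ ^ 2 + 2 * ρ * x1 + 1 = 2 * ρ * (y + x1) := by linear_combination hρ2
        rw [this]
        have : 0 < y + x1 := by rw [hy]; linarith
        positivity
    obtain ⟨q, hq⟩ := Rat.denseRange_cast.exists_mem_open hopen ⟨ρ, hmem⟩
    exact ⟨q, hq⟩
  have hqpos : 0 < q := by exact_mod_cast hq0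
  -- numerator and denominator
  obtain ⟨a, ha⟩ : ∃ a : ℕ, (a : ℤ) = q.num := ⟨q.num.toNat, Int.toNat_of_nonneg
    (Rat.num_pos.2 hqpos).le⟩
  set b := q.den with hb
  have hbpos : 0 < (b : ℝ) := by exact_mod_cast q.den_pos
  have hqab : (q : ℝ) = a / b := by
    have : (q : ℝ) = (q.num : ℝ) / (q.den : ℝ) := by exact_mod_cast (Rat.num_div_den q).symm
    rw [this, ← ha]
    simp [hb]
  have hA : (a : ℝ) ^ 2 + 2 * a * b * x0 + b ^ 2 < 0 := by
    have : (a : ℝ) ^ 2 + 2 * a * b * x0 + b ^ 2 = b ^ 2 * ((q : ℝ) ^ 2 + 2 * q * x0 + 1) := by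
      rw [hqab]; field_simp
    rw [this]
    nlinarith [mul_pos hbpos hbpos]
  have hB : 0 < (a : ℝ) ^ 2 + 2 * a * b * x1 + b ^ 2 := by
    have : (a : ℝ) ^ 2 + 2 * a * b * x1 + b ^ 2 = b ^ 2 * ((q : ℝ) ^ 2 + 2 * q * x1 + 1) := by
      rw [hqab]; field_simp
    rw [this]
    positivity
  -- the polynomial divided by `k`
  have hform : ∀ (k : ℕ) (x : ℝ), ((a * k : ℕ) : ℝ) * x +
      ((a * k : ℕ) : ℝ) * (((a * k : ℕ) : ℝ) - 1) / 2 * x ^ 2 + x * (1 + ((a * k : ℕ) : ℝ) * x) +
        ((b * k : ℕ) : ℝ) * (x * (1 + x * (1 + ((a * k : ℕ) : ℝ) * x))) +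
          ((b * k : ℕ) : ℝ) * (((b * k : ℕ) : ℝ) - 1) / 2 * x ^ 2 =
      k * (k * (x ^ 2 / 2 * ((a : ℝ) ^ 2 + 2 * a * b * x + b ^ 2)) +
        (a * x - a / 2 * x ^ 2 + a * x ^ 2 + b * x + b * x ^ 2 - b / 2 * x ^ 2)) + x := by
    intro k x
    push_cast
    ring
  have hlim : ∀ x : ℝ, (a : ℝ) ^ 2 + 2 * a * b * x + b ^ 2 ≠ 0 → x < 0 →
      Filter.Tendsto (fun k : ℕ => ((k : ℝ) * (k * (x ^ 2 / 2 *
        |(a : ℝ) ^ 2 + 2 * a * b * x + b ^ 2|) -
        |a * x - a / 2 * x ^ 2 + a * x ^ 2 + b * x + b * x ^ 2 - b / 2 * x ^ 2|)) - |x|)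
        Filter.atTop Filter.atTop := by
    intro x hx hx0
    have h1 : 0 < x ^ 2 / 2 * |(a : ℝ) ^ 2 + 2 * a * b * x + b ^ 2| := by
      have h5 := abs_pos.2 hx
      have h6 : 0 < x ^ 2 := by nlinarith
      positivity
    have h2 := (tendsto_natCast_atTop_atTop (R := ℝ)).atTop_mul_const h1
    have h3 := Filter.tendsto_atTop_add_const_right _
      (-|a * x - a / 2 * x ^ 2 + a * x ^ 2 + b * x + b * x ^ 2 - b / 2 * x ^ 2|) h2
    have h4 := (tendsto_natCast_atTop_atTop (R := ℝ)).atTop_mul_atTop₀ h3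
    exact Filter.tendsto_atTop_add_const_right _ (-|x|) h4
  have e0 := (hlim x0 hA.ne (by linarith)).eventually_gt_atTop 0
  have e1 := (hlim x1 hB.ne' (by linarith)).eventually_gt_atTop 0
  obtain ⟨k, ⟨hk0, hk1⟩, hk⟩ := ((e0.and e1).and (Filter.eventually_ge_atTop 1)).exists
  refine root_of_sign (ach_double (a * k) (b * k)) h01 ?_
  show _ * _ < 0
  rw [hform, hform]
  rw [abs_of_neg hA] at hk0
  rw [abs_of_pos hB] at hk1
  have hkpos : (0 : ℝ) ≤ k := by positivity
  have n0 : (k : ℝ) * (k * (x0 ^ 2 / 2 * ((a : ℝ) ^ 2 + 2 * a * b * x0 + b ^ 2)) +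
        (a * x0 - a / 2 * x0 ^ 2 + a * x0 ^ 2 + b * x0 + b * x0 ^ 2 - b / 2 * x0 ^ 2)) + x0 < 0 := by
    have := mul_le_mul_of_nonneg_left (le_abs_self (a * x0 - a / 2 * x0 ^ 2 + a * x0 ^ 2 +
      b * x0 + b * x0 ^ 2 - b / 2 * x0 ^ 2)) hkpos
    have := le_abs_self x0
    nlinarith
  have n1 : 0 < (k : ℝ) * (k * (x1 ^ 2 / 2 * ((a : ℝ) ^ 2 + 2 * a * b * x1 + b ^ 2)) +
        (a * x1 - a / 2 * x1 ^ 2 + a * x1 ^ 2 + b * x1 + b * x1 ^ 2 - b / 2 * x1 ^ 2)) + x1 := by
    have := mul_le_mul_of_nonneg_left (neg_abs_le (a * x1 - a / 2 * x1 ^ 2 + a * x1 ^ 2 +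
      b * x1 + b * x1 ^ 2 - b / 2 * x1 ^ 2)) hkpos
    have := neg_abs_le x1
    nlinarith
  exact mul_neg_of_neg_of_pos n0 n1

/-- Closed form of the broom polynomial. -/
theorem broom_form (m L : ℕ) {x : ℝ} (hx : x ≠ 1) :
    m * x + m * (m - 1) / 2 * x ^ 2 +
        x * ∑ j ∈ range L, (x ^ j * (1 + m * x) + ∑ i ∈ range j, x ^ i) =
      x * (m * m / 2 * x + L / (1 - x)) + (m * x - m / 2 * x ^ 2 +
        x * ((1 + m * x) * ((1 - x ^ L) / (1 - x))) - x * ((1 - x ^ L) / (1 - x)) / (1 - x)) := by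
  have h1 : (1 : ℝ) - x ≠ 0 := sub_ne_zero.2 (Ne.symm hx)
  have hg : ∀ j, ∑ i ∈ range j, x ^ i = (1 - x ^ j) / (1 - x) := by
    intro j
    rw [eq_div_iff h1, mul_comm]
    exact mul_neg_geom_sum x j
  have hsum : ∑ j ∈ range L, (x ^ j * (1 + m * x) + ∑ i ∈ range j, x ^ i) =
      ((1 - x ^ L) / (1 - x)) * (1 + m * x) + (L - (1 - x ^ L) / (1 - x)) / (1 - x) := by
    rw [sum_add_distrib, ← sum_mul, hg]
    congr 1
    simp only [hg]
    rw [← sum_div, sum_sub_distrib, hg]
    simp
  rw [hsum]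
  field_simp
  ring

/-- The error term is at most linear. -/
theorem error_bound {x m P : ℝ} (hx : -1 < x) (hx0 : x < 0) (hm1 : 1 ≤ m) (hpow : |P| ≤ 1) :
    |m * x - m / 2 * x ^ 2 + x * ((1 + m * x) * ((1 - P) / (1 - x))) -
      x * (((1 - P) / (1 - x)) / (1 - x))| ≤ 8 * m := by
  set D := (1 - P) / (1 - x) with hD
  have hPb := abs_le.1 hpow
  have hD1 : 0 ≤ D := div_nonneg (by linarith) (by linarith)
  have hD2 : D ≤ 2 := by
    rw [hD, div_le_iff₀ (by linarith)]
    linarith
  have hE1 : 0 ≤ D / (1 - x) := div_nonneg hD1 (by linarith)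
  have hE2 : D / (1 - x) ≤ 2 := by
    rw [div_le_iff₀ (by linarith)]
    nlinarith
  set E := D / (1 - x) with hE
  have b1 : |m * x| ≤ m := by
    rw [abs_mul, abs_of_nonneg (by linarith : (0 : ℝ) ≤ m), abs_of_neg hx0]
    nlinarith
  have b2 : |m / 2 * x ^ 2| ≤ m := by
    rw [abs_of_nonneg (by positivity)]
    have : x ^ 2 ≤ 1 := by nlinarith
    nlinarith
  have b3 : |x * ((1 + m * x) * D)| ≤ 4 * m := by
    rw [abs_mul, abs_mul, abs_of_neg hx0, abs_of_nonneg hD1]
    have c1 : |1 + m * x| ≤ 2 * m := by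
      refine (abs_add_le _ _).trans ?_
      rw [abs_one]
      linarith
    have c2 : |1 + m * x| * D ≤ 2 * m * 2 :=
      mul_le_mul c1 hD2 hD1 (by linarith)
    have c3 : 0 ≤ |1 + m * x| * D := mul_nonneg (abs_nonneg _) hD1
    have c4 : -x * (|1 + m * x| * D) ≤ 1 * (|1 + m * x| * D) :=
      mul_le_mul_of_nonneg_right (by linarith) c3
    linarith
  have b4 : |x * E| ≤ 2 * m := by
    rw [abs_mul, abs_of_neg hx0, abs_of_nonneg hE1]
    have : -x * E ≤ 1 * E := mul_le_mul_of_nonneg_right (by linarith) hE1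
    linarith
  have t1 := abs_le.1 b1
  have t2 := abs_le.1 b2
  have t3 := abs_le.1 b3
  have t4 := abs_le.1 b4
  rw [abs_le]
  constructor <;> linarith [t1.1, t1.2, t2.1, t2.2, t3.1, t3.2, t4.1, t4.2]

/-- Intervals inside `(-1, 0)`. -/
theorem right_case {x0 x1 : ℝ} (h01 : x0 < x1) (h0 : -1 < x0) (h1 : x1 < 0) :
    ∃ x ∈ realRoots, x0 < x ∧ x < x1 := by
  obtain ⟨q, hq1, hq0⟩ : ∃ q : ℚ, -x1 * (1 - x1) / 2 < q ∧ (q : ℝ) < -x0 * (1 - x0) / 2 :=
    exists_rat_btwn (by nlinarith)
  have hqpos' : (0 : ℝ) < q := by nlinarith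
  have hqpos : 0 < q := by exact_mod_cast hqpos'
  obtain ⟨a, ha⟩ : ∃ a : ℕ, (a : ℤ) = q.num := ⟨q.num.toNat, Int.toNat_of_nonneg
    (Rat.num_pos.2 hqpos).le⟩
  set b := q.den with hb
  have hbpos : 0 < (b : ℝ) := by exact_mod_cast q.den_pos
  have hqab : (q : ℝ) = a / b := by
    have : (q : ℝ) = (q.num : ℝ) / (q.den : ℝ) := by exact_mod_cast (Rat.num_div_den q).symm
    rw [this, ← ha]
    simp [hb]
  -- parameters `m = b k`, `L = a b k^2`
  have main : ∀ x : ℝ, -1 < x → x < 0 → ∀ k : ℕ, 1 ≤ k →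
      |(((b * k : ℕ) : ℝ) * x + ((b * k : ℕ) : ℝ) * (((b * k : ℕ) : ℝ) - 1) / 2 * x ^ 2 +
        x * ∑ j ∈ range (a * b * k ^ 2), (x ^ j * (1 + ((b * k : ℕ) : ℝ) * x) +
          ∑ i ∈ range j, x ^ i)) -
        ((b * k : ℕ) : ℝ) ^ 2 * (x * (x / 2 + q / (1 - x)))| ≤ 8 * ((b * k : ℕ) : ℝ) := by
    intro x hx hx0 k hk
    rw [broom_form _ _ (by linarith)]
    have hm1 : (1 : ℝ) ≤ ((b * k : ℕ) : ℝ) := by
      have : 1 ≤ b * k := Nat.mul_pos q.den_pos hk
      exact_mod_cast this
    have hL : ((a * b * k ^ 2 : ℕ) : ℝ) = q * ((b * k : ℕ) : ℝ) ^ 2 := by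
      rw [hqab]; push_cast; field_simp
    rw [hL]
    generalize ((b * k : ℕ) : ℝ) = m at hm1 ⊢
    have hpow : |x ^ (a * b * k ^ 2)| ≤ 1 := by
      rw [abs_pow]
      exact pow_le_one₀ (abs_nonneg _) (by rw [abs_of_neg hx0]; linarith)
    have he : x * (m * m / 2 * x + q * m ^ 2 / (1 - x)) +
        (m * x - m / 2 * x ^ 2 + x * ((1 + m * x) * ((1 - x ^ (a * b * k ^ 2)) / (1 - x))) -
          x * ((1 - x ^ (a * b * k ^ 2)) / (1 - x)) / (1 - x)) -
        m ^ 2 * (x * (x / 2 + q / (1 - x))) =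
        m * x - m / 2 * x ^ 2 + x * ((1 + m * x) * ((1 - x ^ (a * b * k ^ 2)) / (1 - x))) -
          x * (((1 - x ^ (a * b * k ^ 2)) / (1 - x)) / (1 - x)) := by
      ring
    rw [he]
    exact error_bound hx hx0 hm1 hpow
  have hg0 : 0 < x0 * (x0 / 2 + q / (1 - x0)) := by
    have : x0 / 2 + q / (1 - x0) < 0 := by
      have h2 : (q : ℝ) / (1 - x0) < -x0 / 2 := by
        rw [div_lt_iff₀ (by linarith)]
        linarith
      linarith
    nlinarith
  have hg1 : x1 * (x1 / 2 + q / (1 - x1)) < 0 := by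
    have : 0 < x1 / 2 + q / (1 - x1) := by
      have h2 : -x1 / 2 < (q : ℝ) / (1 - x1) := by
        rw [lt_div_iff₀ (by linarith)]
        linarith
      linarith
    nlinarith
  obtain ⟨k, hk⟩ := exists_nat_gt (8 / (x0 * (x0 / 2 + q / (1 - x0))) +
    8 / (-(x1 * (x1 / 2 + q / (1 - x1)))) + 1)
  have hd0 : 0 < 8 / (x0 * (x0 / 2 + q / (1 - x0))) := by positivity
  have hd1 : 0 < 8 / (-(x1 * (x1 / 2 + q / (1 - x1)))) := div_pos (by norm_num) (by linarith)
  have hk1 : 1 ≤ k := by
    have : (1 : ℝ) < k := by linarith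
    exact_mod_cast this.le
  have hmk : (k : ℝ) ≤ ((b * k : ℕ) : ℝ) := by
    have : k ≤ b * k := Nat.le_mul_of_pos_left k q.den_pos
    exact_mod_cast this
  have hmpos : (0 : ℝ) < ((b * k : ℕ) : ℝ) := by
    have : (1 : ℝ) ≤ k := by exact_mod_cast hk1
    linarith
  refine root_of_sign (ach_broom (b * k) (a * b * k ^ 2)) h01 ?_
  show _ * _ < 0
  have m0 := main x0 h0 (by linarith) k hk1
  have m1 := main x1 (by linarith) h1 k hk1
  rw [abs_le] at m0 m1
  set m := ((b * k : ℕ) : ℝ) with hm
  have n0 : 8 * m < m ^ 2 * (x0 * (x0 / 2 + q / (1 - x0))) := by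
    have : 8 / (x0 * (x0 / 2 + q / (1 - x0))) < m := by linarith
    rw [div_lt_iff₀ hg0] at this
    nlinarith
  have n1 : 8 * m < m ^ 2 * (-(x1 * (x1 / 2 + q / (1 - x1)))) := by
    have : 8 / (-(x1 * (x1 / 2 + q / (1 - x1)))) < m := by linarith
    rw [div_lt_iff₀ (by linarith)] at this
    nlinarith
  exact mul_neg_of_pos_of_neg (by linarith [m0.1]) (by linarith [m1.2])

theorem roots_nonpos {x : ℝ} (hx : x ∈ realRoots) : x ≤ 0 := by
  obtain ⟨V, _, G, hT, hcard, h0⟩ := hx
  by_contra hlt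
  push Not at hlt
  classical
  unfold wiener at h0
  obtain ⟨a, b, hab⟩ := Fintype.exists_pair_of_one_lt_card (by omega : 1 < Fintype.card V)
  have : 0 < ∑ p ∈ (univ : Finset V).offDiag, x ^ G.dist p.1 p.2 :=
    sum_pos (fun p _ => pow_pos hlt _) ⟨(a, b), by simpa using hab⟩
  have h0' : (∑ p ∈ (univ : Finset V).offDiag, x ^ G.dist p.1 p.2) / 2 = 0 := h0
  linarith

theorem dense {a b : ℝ} (hab : a < b) (hb : b ≤ 0) : ∃ x ∈ realRoots, a < x ∧ x < b := by
  by_cases h : a < -1
  · set c := min b (-1) with hc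
    have hac : a < c := lt_min hab h
    obtain ⟨x1, h1, h2⟩ := exists_between hac
    obtain ⟨x0, h3, h4⟩ := exists_between h1
    obtain ⟨x, hx, h5, h6⟩ := left_case h4 (h2.trans_le (min_le_right _ _))
    exact ⟨x, hx, h3.trans h5, h6.trans (h2.trans_le (min_le_left _ _))⟩
  · push Not at h
    obtain ⟨x1, h1, h2⟩ := exists_between hab
    obtain ⟨x0, h3, h4⟩ := exists_between h1
    obtain ⟨x, hx, h5, h6⟩ := right_case h4 (by linarith) (by linarith)
    exact ⟨x, hx, h3.trans h5, h6.trans h2⟩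

/-- The closure of the set of real Wiener roots of trees is `(-∞, 0]`. -/
theorem result : closure realRoots = Set.Iic 0 := by
  apply Set.Subset.antisymm
  · apply closure_minimal _ isClosed_Iic
    intro x hx
    exact roots_nonpos hx
  · intro x hx
    rw [Metric.mem_closure_iff]
    intro ε hε
    obtain ⟨y, hy, h1, h2⟩ := dense (show x - ε < x by linarith) hx
    refine ⟨y, hy, ?_⟩
    rw [Real.dist_eq, abs_of_pos (by linarith)]
    linarith

end Pool.Agent.Results.MP_9469ec_co.WienerRootsDense
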